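import Pool.Agent.Helper69.BQ.St.A

/-!
# Project BQ, piece B2: the norm residue symbol at an odd prime that does not divide the radicand
-/

set_option autoImplicit false

namespace Pool.Agent.Helper52.BQ

open Pool.Agent.Helper69.BQ

section rational

variable {p : ℕ}

/-- If `d` is not a square modulo `p` and `p` divides `X² - d Y²` then `p` divides `X` and `Y`. -/
private lemma b2_dvd (hp : p.Prime) {d X Y : ℤ} (hd : ¬ IsSquare ((d : ℤ) : ZMod p))
    (h : (p : ℤ) ∣ X ^ 2 - d * Y ^ 2) : (p : ℤ) ∣ X ∧ (p : ℤ) ∣ Y := by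
  have : Fact p.Prime := ⟨hp⟩
  have h0 : ((X ^ 2 - d * Y ^ 2 : ℤ) : ZMod p) = 0 := (ZMod.intCast_zmod_eq_zero_iff_dvd _ p).2 h
  push_cast at h0
  have h1 : (X : ZMod p) ^ 2 = d * (Y : ZMod p) ^ 2 := sub_eq_zero.mp h0
  have hY : (Y : ZMod p) = 0 := by
    by_contra hY
    refine hd ⟨(X : ZMod p) / Y, ?_⟩
    rw [div_mul_div_comm, eq_div_iff (mul_ne_zero hY hY)]
    linear_combination -h1
  have hX : (X : ZMod p) = 0 := by
    rw [hY, zero_pow two_ne_zero, mul_zero] at h1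
    exact pow_eq_zero_iff two_ne_zero |>.mp h1
  exact ⟨(ZMod.intCast_zmod_eq_zero_iff_dvd _ p).1 hX, (ZMod.intCast_zmod_eq_zero_iff_dvd _ p).1 hY⟩

/-- The valuation of `X² - d Y²` is even if `d` is not a square modulo `p`. -/
private lemma b2_int (hp : p.Prime) {d : ℤ} (hd : ¬ IsSquare ((d : ℤ) : ZMod p)) :
    ∀ (m : ℕ) (X Y : ℤ), X.natAbs + Y.natAbs ≤ m → X ^ 2 - d * Y ^ 2 ≠ 0 →
      vv p ((X ^ 2 - d * Y ^ 2 : ℤ) : ℚ) = 0 := by
  intro m
  induction m with
  | zero =>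
    intro X Y hm hne
    have hX : X = 0 := by omega
    have hY : Y = 0 := by omega
    exact absurd (by rw [hX, hY]; ring) hne
  | succ m ih =>
    intro X Y hm hne
    by_cases hdvd : (p : ℤ) ∣ X ^ 2 - d * Y ^ 2
    · obtain ⟨⟨X', hX'⟩, ⟨Y', hY'⟩⟩ := b2_dvd hp hd hdvd
      have hp2 : 2 ≤ p := hp.two_le
      have hEq : X ^ 2 - d * Y ^ 2 = (p : ℤ) ^ 2 * (X' ^ 2 - d * Y' ^ 2) := by
        rw [hX', hY']
        ring
      have hne' : X' ^ 2 - d * Y' ^ 2 ≠ 0 := by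
        intro h0
        exact hne (by rw [hEq, h0, mul_zero])
      have habsX : X.natAbs = p * X'.natAbs := by
        rw [hX', Int.natAbs_mul, Int.natAbs_natCast]
      have habsY : Y.natAbs = p * Y'.natAbs := by
        rw [hY', Int.natAbs_mul, Int.natAbs_natCast]
      have hpos : 0 < X'.natAbs + Y'.natAbs := by
        by_contra hcon
        have hX0 : X' = 0 := by omega
        have hY0 : Y' = 0 := by omega
        exact hne' (by rw [hX0, hY0]; ring)
      have hlt : X'.natAbs + Y'.natAbs ≤ m := by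
        have h2 : 2 * (X'.natAbs + Y'.natAbs) ≤ p * (X'.natAbs + Y'.natAbs) :=
          Nat.mul_le_mul_right _ hp2
        rw [mul_add p] at h2
        omega
      have hq : ((X ^ 2 - d * Y ^ 2 : ℤ) : ℚ)
          = (p : ℚ) ^ 2 * ((X' ^ 2 - d * Y' ^ 2 : ℤ) : ℚ) := by
        rw [hEq]
        push_cast
        ring
      have hp0 : (p : ℚ) ≠ 0 := by exact_mod_cast hp.ne_zero
      have hn0 : ((X' ^ 2 - d * Y' ^ 2 : ℤ) : ℚ) ≠ 0 := by exact_mod_cast hne'
      rw [hq, vv_mul hp (pow_ne_zero 2 hp0) hn0, vv_sq hp hp0, zero_add]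
      exact ih X' Y' hlt hne'
    · exact vv_of_not_dvd hp hdvd

/-- B2. The norm residue symbol at an odd prime that does not divide the radicand. -/
lemma nm_unram (hp : p.Prime) (hp2 : p ≠ 2) {d : ℤ} (hd : ¬ (p : ℤ) ∣ d)
    {g : ℚ} (hg : g ≠ 0) (h : IsNm d g) : xx p ((d : ℤ) : ℚ) * vv p g = 0 := by
  by_cases hsq : IsSquare ((d : ℤ) : ZMod p)
  · rw [(xx_int hp hp2 hd).2 hsq, zero_mul]
  · obtain ⟨x, y, hxy⟩ := h
    -- common denominator
    set Z : ℚ := (x.den : ℚ) * (y.den : ℚ) with hZ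
    have hx0 : (x.den : ℚ) ≠ 0 := by exact_mod_cast x.den_nz
    have hy0 : (y.den : ℚ) ≠ 0 := by exact_mod_cast y.den_nz
    have hZ0 : Z ≠ 0 := mul_ne_zero hx0 hy0
    have hX : x * Z = ((x.num * y.den : ℤ) : ℚ) := by
      rw [hZ, ← mul_assoc, Rat.mul_den_eq_num]
      push_cast
      ring
    have hY : y * Z = ((y.num * x.den : ℤ) : ℚ) := by
      rw [hZ, mul_comm (x.den : ℚ), ← mul_assoc, Rat.mul_den_eq_num]
      push_cast
      ring
    have hgZ : g * Z ^ 2 = (((x.num * y.den) ^ 2 - d * (y.num * x.den) ^ 2 : ℤ) : ℚ) := by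
      rw [Int.cast_sub, Int.cast_mul, Int.cast_pow, Int.cast_pow, ← hX, ← hY, hxy]
      ring
    have hne : ((x.num * y.den) ^ 2 - d * (y.num * x.den) ^ 2 : ℤ) ≠ 0 := by
      intro h0
      rw [h0, Int.cast_zero] at hgZ
      exact (mul_ne_zero hg (pow_ne_zero 2 hZ0)) hgZ
    have hv : vv p (g * Z ^ 2) = 0 := by
      rw [hgZ]
      exact b2_int hp hsq _ _ _ le_rfl hne
    rw [vv_mul hp hg (pow_ne_zero 2 hZ0), vv_sq hp hZ0, add_zero] at hv
    rw [hv, mul_zero]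

end rational

end Pool.Agent.Helper52.BQ
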